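import Pool.Agent.H3.MX.Fin
import Pool.Agent.H93.RG.Blk

/-!
# Counting with blocks of size `g r`, every line with its own modulus: substitution
-/

set_option autoImplicit false

namespace Pool.Agent.H93.MX

open Pool.Agent.H3.Frg
open Pool.Agent.H3.MX Pool.Agent.H93.RG Pool.Agent.H93.RG.Blk
open Pool.Agent.H67.FG

/-- without gates before, without gates after the substitution -/
theorem gates_sb {V W : Type} (s : V → Fo W) (hs : ∀ v, (s v).gates = ∅) (A : Fo V) (h : A.gates = ∅) :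
    (sb s A).gates = ∅ := by
  induction A with
  | var v => exact hs v
  | neg A ih =>
    have h1 : A.gates = ∅ := by
      rw [Set.eq_empty_iff_forall_notMem] at h ⊢
      rintro B ⟨hB, hm⟩
      exact h B ⟨by simp only [Fo.subs, List.mem_cons]; exact Or.inr hB, hm⟩
    have h2 := ih h1
    rw [Set.eq_empty_iff_forall_notMem] at h2 ⊢
    rintro B ⟨hB, hm⟩
    simp only [sb, Fo.subs, List.mem_cons] at hB
    rcases hB with rfl | hB
    · obtain ⟨a, n, f, e⟩ := hm
      exact absurd e (by simp)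
    · exact h2 B ⟨hB, hm⟩
  | imp A B ihA ihB =>
    have h1 : A.gates = ∅ := by
      rw [Set.eq_empty_iff_forall_notMem] at h ⊢
      rintro X ⟨hX, hm⟩
      exact h X ⟨by simp only [Fo.subs, List.mem_cons, List.mem_append]; exact Or.inr (Or.inl hX), hm⟩
    have h1' : B.gates = ∅ := by
      rw [Set.eq_empty_iff_forall_notMem] at h ⊢
      rintro X ⟨hX, hm⟩
      exact h X ⟨by simp only [Fo.subs, List.mem_cons, List.mem_append]; exact Or.inr (Or.inr hX), hm⟩
    have h2 := ihA h1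
    have h3 := ihB h1'
    rw [Set.eq_empty_iff_forall_notMem] at h2 h3 ⊢
    rintro X ⟨hX, hm⟩
    simp only [sb, Fo.subs, List.mem_cons, List.mem_append] at hX
    rcases hX with rfl | hX | hX
    · obtain ⟨a, n, f, e⟩ := hm
      exact absurd e (by simp)
    · exact h2 X ⟨hX, hm⟩
    · exact h3 X ⟨hX, hm⟩
  | mod a n f ih =>
    exfalso
    rw [Set.eq_empty_iff_forall_notMem] at h
    exact h (.mod a n f) ⟨by simp [Fo.subs], a, n, f, rfl⟩

/-- a substitution which sends the hypotheses to hypotheses or to instances of schemes transforms refutations -/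
theorem mix_sb {V W : Type} (s : V → Fo W) (hs : ∀ v, (s v).gates = ∅) {k k' : ℕ} {H : Set (Fo V)} {H' : Set (Fo W)}
    (hk : k ≤ k')
    (hH : ∀ p : ℕ, ∀ A ∈ H, sb s A ∈ H' ∨ ∃ (ψ : Fm ℕ) (σ : ℕ → Fo W), ψ.len ≤ k' ∧
      (∀ v : Fo W → Bool, Resp p v → ψ.eval (fun n => v (σ n)) = true) ∧ sb s A = inst σ ψ)
    {π : List (ℕ × Fo V)} (hπ : IsMix k H π) : IsMix k' H' (π.map fun x => (x.1, sb s x.2)) := by
  refine ⟨?_, ?_⟩
  · intro i hi
    have hi' : i < π.length := by simpa using hi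
    rw [List.getElem_map]
    rcases hπ.line i hi' with h | ⟨ψ, σ, h1, h2, h3⟩ | ⟨j, l, hj, hl, h, hj1, hl1⟩
    · rcases hH (π[i]).1 _ h with h | h
      · exact Or.inl h
      · exact Or.inr (Or.inl h)
    · exact Or.inr (Or.inl ⟨ψ, fun i => sb s (σ i), h1.trans hk, fun v hv => h2 _ (resp_sb s hv), by
        show sb s (π[i]).2 = _
        rw [h3, sb_inst]⟩)
    · refine Or.inr (Or.inr ⟨j, l, hj, hl, ?_, ?_, ?_⟩)
      · rw [List.getElem_map, List.getElem_map]
        show sb s (π[l]).2 = _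
        rw [h]
        rfl
      · rw [List.getElem_map]
        exact hj1.imp id (gates_sb s hs _)
      · rw [List.getElem_map]
        exact hl1.imp id (gates_sb s hs _)
  · obtain ⟨h, A, e⟩ := hπ.last
    refine ⟨by simpa using h, sb s A, ?_⟩
    rw [List.getLast_map]
    show sb s (π.getLast h).2 = _
    rw [e]
    rfl

/-- refutations with one modulus -/
theorem mix_of_ref {V : Type} {m k : ℕ} {H : Set (Fo V)} {π : List (Fo V)} (hπ : IsRef m k H π) :
    IsMix k H (π.map fun A => (m, A)) := by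
  refine ⟨?_, ?_⟩
  · intro i hi
    have hi' : i < π.length := by simpa using hi
    rw [List.getElem_map]
    rcases hπ.line i hi' with h | ⟨ψ, σ, h1, h2, h3⟩ | ⟨j, l, hj, hl, h⟩
    · exact Or.inl h
    · exact Or.inr (Or.inl ⟨ψ, σ, h1, h2, h3⟩)
    · refine Or.inr (Or.inr ⟨j, l, hj, hl, ?_, ?_, ?_⟩)
      · rw [List.getElem_map, List.getElem_map]
        exact h
      · rw [List.getElem_map]
        exact Or.inl rfl
      · rw [List.getElem_map]
        exact Or.inl rfl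
  · obtain ⟨h, A, e⟩ := hπ.last
    refine ⟨by simpa using h, A, ?_⟩
    rw [List.getLast_map]
    exact e

theorem sv_gates (a N : ℕ) (B : Finset (Fin (a * N))) : (sv a N B).gates = ∅ := by
  rw [Set.eq_empty_iff_forall_notMem]
  rintro X ⟨hX, b, n, f, rfl⟩
  rcases sv_cases a N B with ⟨B', -, h⟩ | h <;> rw [h] at hX <;> simp [Fo.subs] at hX

theorem subs_finite {V : Type} (π : List (ℕ × Fo V)) : {B : Fo V | ∃ x ∈ π, B ∈ x.2.subs}.Finite := by
  have : {B : Fo V | ∃ x ∈ π, B ∈ x.2.subs} = {B | B ∈ π.flatMap fun x => x.2.subs} := by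
    ext B; simp
  rw [this]
  exact List.finite_toSet _

/-- Blocks of size `a r`, `a N` points -/
theorem mix_blocks {a r d k l m t N : ℕ} (ha : 1 ≤ a) (hr : 2 ≤ r) (hm : 2 ≤ m) (ht : 1 ≤ t)
    (hN : ((k + 10) * (r * m * (t + 1)) ^ (l + 11)) ^ (2 * r ^ (2 * (d + 2))) ≤ N)
    (π : List (ℕ × Fo (Finset (Fin (a * N))))) (hπ : IsMix k (Count (a * r) (a * N)) π)
    (hmod : ∀ x ∈ π, x.1 ≤ m ∧ ∃ p e : ℕ, p.Prime ∧ ¬ p ∣ r ∧ 1 ≤ e ∧ x.1 = p ^ e)
    (hline : ∀ x ∈ π, (∀ B ∈ x.2.subs, B.dep ≤ d) ∧ Few t l x.2) :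
    2 ^ t ≤ {B | ∃ x ∈ π, B ∈ x.2.subs}.ncard := by
  have hout := sv_outer a N
  have hE := sv_subs a N
  set E : Set (Fo (Finset (Fin N))) := {.imp (.var ∅) (.var ∅), .var ∅} with hEdef
  have hEf : E.Finite := by rw [hEdef]; exact Set.toFinite _
  have hEc : E.ncard ≤ 2 := by rw [hEdef]; exact (Set.ncard_insert_le _ _).trans (by simp)
  have h1 := mix_gates (d := d + 2) (k := k + 7) (l := l) (m := m) (t := t + 1) hr (by omega) hm
    (by omega) hN (π.map fun x => (x.1, sb (sv a N) x.2))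
    (mix_sb (sv a N) (sv_gates a N) (by omega) (fun p A hA => hyp_sb a N ha A hA) hπ)
    (by
      intro x' hx'
      obtain ⟨x, hx, rfl⟩ := List.mem_map.1 hx'
      exact hmod x hx)
    (by
      intro x' hx'
      obtain ⟨x, hx, rfl⟩ := List.mem_map.1 hx'
      refine ⟨?_, few_sb _ hout l _ (few_mono (by omega) l _ (hline x hx).2)⟩
      intro B hB
      rcases sb_subs (sv a N) hE x.2 B hB with ⟨C, hC, rfl⟩ | h
      · have := sb_dep (sv a N) (sv_dep a N) C
        have := (hline x hx).1 C hC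
        omega
      · rw [hEdef] at h
        rcases h with h | h <;> rw [h] <;> simp [Fo.dep])
  have h2 : {B | ∃ x ∈ π.map (fun x => (x.1, sb (sv a N) x.2)), B ∈ x.2.subs} ⊆
      sb (sv a N) '' {B | ∃ x ∈ π, B ∈ x.2.subs} ∪ E := by
    rintro B ⟨x', hx', hB⟩
    obtain ⟨x, hx, rfl⟩ := List.mem_map.1 hx'
    rcases sb_subs (sv a N) hE x.2 B hB with ⟨C, hC, rfl⟩ | h
    · exact Or.inl ⟨C, ⟨x, hx, hC⟩, rfl⟩
    · exact Or.inr h
  have hfin := subs_finite π
  have h3 := Set.ncard_le_ncard h2 ((hfin.image _).union hEf)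
  have h4 := Set.ncard_union_le (sb (sv a N) '' {B | ∃ x ∈ π, B ∈ x.2.subs}) E
  have h5 : (sb (sv a N) '' {B | ∃ x ∈ π, B ∈ x.2.subs}).ncard ≤ {B | ∃ x ∈ π, B ∈ x.2.subs}.ncard :=
    Set.ncard_image_le hfin
  have h6 : 2 ^ (t + 1) = 2 ^ t + 2 ^ t := by rw [pow_succ]; ring
  have h7 : 2 ≤ 2 ^ t := by
    calc 2 = 2 ^ 1 := rfl
      _ ≤ 2 ^ t := Nat.pow_le_pow_right (by norm_num) ht
  omega

/-- The hard side of the dichotomy, every line with its own modulus: `g` divides `r` and `N`, the primes of the moduli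
do not divide `r / g`, and `r` does not divide `N`. -/
theorem mix_div {g r d k l m t N : ℕ} (hr : 1 ≤ r) (hrN : ¬ r ∣ N) (hm : 2 ≤ m)
    (hgr : g ∣ r) (hg : g ∣ N) (ht : 1 ≤ t)
    (hN : ((k + 10) * (r * m * (t + 1)) ^ (l + 11)) ^ (2 * r ^ (2 * (d + 2))) ≤ N)
    (π : List (ℕ × Fo (Finset (Fin N)))) (hπ : IsMix k (Count r N) π)
    (hmod : ∀ x ∈ π, x.1 ≤ m ∧ ∃ p e : ℕ, p.Prime ∧ ¬ p ∣ r / g ∧ 1 ≤ e ∧ x.1 = p ^ e)
    (hline : ∀ x ∈ π, (∀ B ∈ x.2.subs, B.dep ≤ d) ∧ Few t l x.2) :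
    2 ^ t ≤ {B | ∃ x ∈ π, B ∈ x.2.subs}.ncard := by
  have hg1 : 1 ≤ g := Nat.pos_of_dvd_of_pos hgr hr
  obtain ⟨r', hr'⟩ := hgr
  have hgr : g ≤ r := by
    rw [hr']
    rcases Nat.eq_zero_or_pos r' with h | h
    · rw [h] at hr'; omega
    · exact Nat.le_mul_of_pos_right _ h
  obtain ⟨N', rfl⟩ := hg
  have hrr : r / g = r' := by rw [hr']; exact Nat.mul_div_cancel_left _ hg1
  rw [hrr] at hmod
  have hr'1 : 1 ≤ r' := by
    rcases Nat.eq_zero_or_pos r' with h | h
    · rw [h] at hr'; omega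
    · exact h
  have hr'2 : 2 ≤ r' := by
    by_contra h
    have h1 : r' = 1 := by omega
    apply hrN
    rw [hr', h1, mul_one]
    exact Dvd.intro _ rfl
  have hr'r : r' ≤ r := by rw [hr']; exact Nat.le_mul_of_pos_left _ hg1
  set X := (k + 10) * (r * m * (t + 1)) ^ (l + 11) with hX
  have hm1 : 1 ≤ m := by omega
  have hrX : r ≤ X := by
    have h1 : r ≤ r * m * (t + 1) := by
      rw [mul_assoc]
      exact Nat.le_mul_of_pos_right _ (Nat.mul_pos hm1 (by omega))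
    have h2 : r * m * (t + 1) ≤ (r * m * (t + 1)) ^ (l + 11) := Nat.le_self_pow (by omega) _
    have h3 : (r * m * (t + 1)) ^ (l + 11) ≤ X := Nat.le_mul_of_pos_left _ (by omega)
    omega
  have hX1 : 1 ≤ X := by omega
  set Y := (k + 10) * (r' * m * (t + 1)) ^ (l + 11) with hY
  have hYX : Y ≤ X := by
    rw [hX, hY]; gcongr
  have hmain : Y ^ (2 * r' ^ (2 * (d + 2))) ≤ N' := by
    rcases Nat.lt_or_ge g 2 with h | h
    · have hg2 : g = 1 := by omega
      have hrr' : r = r' := by rw [hr', hg2, one_mul]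
      rw [hg2, one_mul] at hN
      calc Y ^ (2 * r' ^ (2 * (d + 2))) ≤ X ^ (2 * r' ^ (2 * (d + 2))) := Nat.pow_le_pow_left hYX _
        _ = X ^ (2 * r ^ (2 * (d + 2))) := by rw [← hrr']
        _ ≤ N' := hN
    · have h1 : r' < r := by
        rw [hr']
        nlinarith
      have h2 : r' ^ (2 * (d + 2)) < r ^ (2 * (d + 2)) := Nat.pow_lt_pow_left h1 (by omega)
      have h3 : g * X ^ (2 * r' ^ (2 * (d + 2))) ≤ g * N' := by
        calc g * X ^ (2 * r' ^ (2 * (d + 2))) ≤ X * X ^ (2 * r' ^ (2 * (d + 2))) := Nat.mul_le_mul_right _ (hgr.trans hrX)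
          _ = X ^ (2 * r' ^ (2 * (d + 2)) + 1) := by rw [pow_succ]; ring
          _ ≤ X ^ (2 * r ^ (2 * (d + 2))) := Nat.pow_le_pow_right hX1 (by omega)
          _ ≤ g * N' := hN
      calc Y ^ (2 * r' ^ (2 * (d + 2))) ≤ X ^ (2 * r' ^ (2 * (d + 2))) := Nat.pow_le_pow_left hYX _
        _ ≤ N' := Nat.le_of_mul_le_mul_left h3 hg1
  have hπ' : IsMix k (Count (g * r') (g * N')) π := by rw [← hr']; exact hπ
  exact mix_blocks hg1 hr'2 hm ht hmain π hπ' hmod hline

end Pool.Agent.H93.MX
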